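import Mathlib

namespace Pool.Agent.Results.MP_c1a8be_al.Counter

open Filter Topology FreeGroup

/-- number of occurrences of the word `u` as a subword of the word `x` -/
def occ {β : Type} [DecidableEq β] (u x : List β) : ℕ := x.tails.countP (fun t => decide (u <+: t))

/-- a non-empty word none of whose non-empty proper initial segments is a final segment -/
def NSO {β : Type} (u : List β) : Prop := u ≠ [] ∧ ∀ v, v ≠ [] → v ≠ u → v <+: u → ¬ v <:+ u

/-- the Brooks function of a non-self-overlapping word -/
def brooks {S : Type} [DecidableEq S] (w g : FreeGroup S) : ℝ :=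
  (occ w.toWord g.toWord : ℝ) - occ w⁻¹.toWord g.toWord

/-- quasimorphisms -/
def IsQM {G : Type} [Group G] (f : G → ℝ) : Prop := ∃ D : ℝ, ∀ g h, |f g + f h - f (g * h)| ≤ D

section lists
variable {β : Type} [DecidableEq β]

lemma occ_cons (u : List β) (y : β) (t : List β) :
    occ u (y :: t) = (if u <+: y :: t then 1 else 0) + occ u t := by
  simp only [occ, List.tails_cons, List.countP_cons, decide_eq_true_eq]; omega

def A (u : List β) : List β → List β → ℕ
  | [], _ => 0
  | z :: x, y => (if u <+: z :: x ++ y then 1 else 0) + A u x y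

lemma occ_append (u x y : List β) : occ u (x ++ y) = A u x y + occ u y := by
  induction x with
  | nil => simp [A]
  | cons z x ih => rw [List.cons_append, occ_cons, ih, A, List.cons_append]; omega

lemma A_le (u x y : List β) : A u x y ≤ x.length := by
  induction x with
  | nil => simp [A]
  | cons z x ih => rw [A, List.length_cons]; split_ifs <;> omega

lemma A_congr (u x y z : List β) (h : u.length ≤ y.length) : A u x (y ++ z) = A u x y := by
  induction x with
  | nil => rfl
  | cons w x ih =>
    rw [A, A, ih]
    congr 1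
    have : u <+: w :: x ++ (y ++ z) ↔ u <+: w :: x ++ y := by
      rw [← List.append_assoc]
      constructor
      · intro h1
        exact List.prefix_of_prefix_length_le h1 (List.prefix_append _ _) (by simp; omega)
      · intro h1
        exact h1.trans (List.prefix_append _ _)
    simp only [this]

lemma A_zero (u x y : List β) (h : ∀ x1 x2, x = x1 ++ x2 → x2 ≠ [] → ¬ u <+: x2 ++ y) :
    A u x y = 0 := by
  induction x with
  | nil => rfl
  | cons w x ih =>
    rw [A, ih (fun x1 x2 h1 h2 => h (w :: x1) x2 (by simp [h1]) h2), if_neg (h [] _ rfl (by simp))]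

def rep (c : List β) (n : ℕ) : List β := (List.replicate n c).flatten

omit [DecidableEq β] in
lemma rep_add (c : List β) (m n : ℕ) : rep c (m + n) = rep c m ++ rep c n := by
  simp only [rep, List.replicate_add, List.flatten_append]

omit [DecidableEq β] in
lemma rep_one (c : List β) : rep c 1 = c := by simp [rep]

omit [DecidableEq β] in
lemma rep_len (c : List β) (n : ℕ) : (rep c n).length = n * c.length := by simp [rep]

lemma occ_rep (u c q : List β) (hc : c ≠ []) (j : ℕ) :
    occ u (rep c (u.length + j) ++ q) =
      j * A u c (rep c u.length) + occ u (rep c u.length ++ q) := by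
  induction j with
  | zero => simp
  | succ j ih =>
    have hl : 0 < c.length := List.length_pos_iff.2 hc
    rw [show u.length + (j + 1) = 1 + (u.length + j) by ring, rep_add, rep_one, List.append_assoc,
      occ_append, ih, rep_add, List.append_assoc, A_congr _ _ _ _ (by rw [rep_len]; nlinarith)]
    ring

lemma A_nso (u c : List β) (hc : c ≠ []) (hu : NSO u) (hl : c.length < u.length) :
    A u c (rep c u.length) = 0 := by
  apply A_zero
  rintro c1 c2 rfl h2 h
  set Y := c2 ++ rep (c1 ++ c2) u.length with hY
  have e : Y ++ (c1 ++ c2) = (c2 ++ c1) ++ Y := by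
    have : rep (c1 ++ c2) u.length ++ (c1 ++ c2) = (c1 ++ c2) ++ rep (c1 ++ c2) u.length := by
      have a := rep_add (c1 ++ c2) u.length 1
      have b := rep_add (c1 ++ c2) 1 u.length
      rw [rep_one] at a b
      rw [← a, ← b, add_comm]
    rw [hY, List.append_assoc, this]; simp
  have h3 : u <+: (c2 ++ c1) ++ Y := by rw [← e]; exact h.trans (List.prefix_append _ _)
  have hl2 : (c2 ++ c1).length < u.length := by simp at hl ⊢; omega
  have hp : 0 < (c2 ++ c1).length := by
    have := List.length_pos_iff.2 h2; simp; omega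
  have h4 : u.drop (c2 ++ c1).length <+: Y := by
    have := h3.drop (c2 ++ c1).length
    rwa [List.drop_left] at this
  refine hu.2 (u.drop (c2 ++ c1).length) ?_ ?_ ?_ (List.drop_suffix _ _)
  · intro h5
    have := congrArg List.length h5
    simp only [List.length_drop, List.length_nil] at this; omega
  · intro h5
    have := congrArg List.length h5
    simp only [List.length_drop] at this; omega
  · exact List.prefix_of_prefix_length_le h4 h (by simp)

lemma lim_bdd (f : ℕ → ℝ) (k D : ℝ) (m : ℕ) (h : ∀ n, m ≤ n → |f n - n * k| ≤ D) :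
    Tendsto (fun n : ℕ => f n / n) atTop (𝓝 k) := by
  have h0 : Tendsto (fun n : ℕ => D / (n : ℝ)) atTop (𝓝 0) := tendsto_const_div_atTop_nhds_zero_nat D
  rw [tendsto_iff_norm_sub_tendsto_zero]
  refine squeeze_zero' (Eventually.of_forall fun _ => norm_nonneg _) ?_ h0
  filter_upwards [eventually_ge_atTop m, eventually_gt_atTop 0] with n hn hn0
  have : (0 : ℝ) < n := by exact_mod_cast hn0
  rw [Real.norm_eq_abs, show f n / n - k = (f n - n * k) / n by field_simp, abs_div, abs_of_pos this]
  exact div_le_div_of_nonneg_right (h n hn) this.le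

lemma occ_bdd (u p c q : List β) (hc : c ≠ []) : ∃ D : ℝ, ∀ n, u.length ≤ n →
    |(occ u (p ++ rep c n ++ q) : ℝ) - n * A u c (rep c u.length)| ≤ D := by
  refine ⟨p.length + occ u (rep c u.length ++ q) + u.length * A u c (rep c u.length), ?_⟩
  intro n hn
  obtain ⟨j, rfl⟩ := Nat.exists_eq_add_of_le hn
  rw [List.append_assoc, occ_append, occ_rep _ _ _ hc]
  have h1 : (A u p (rep c (u.length + j) ++ q) : ℝ) ≤ p.length := by exact_mod_cast A_le _ _ _
  have h2 : (0 : ℝ) ≤ A u p (rep c (u.length + j) ++ q) := by positivity
  have h3 : (0 : ℝ) ≤ occ u (rep c u.length ++ q) := by positivity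
  have h4 : (0 : ℝ) ≤ u.length * A u c (rep c u.length) := by positivity
  have h5 : (0 : ℝ) ≤ p.length := by positivity
  push_cast
  rw [abs_le]
  constructor <;> nlinarith

open Classical in
noncomputable def ind (V : List β → Prop) (u : List β) : ℝ := if V u then 1 else 0

noncomputable def pre (V : List β → Prop) (x : List β) : ℝ :=
  ∑ k ∈ Finset.range (x.length + 1), ind V (x.take k)

noncomputable def suf (V : List β → Prop) : List β → ℝ
  | [] => 0
  | y :: t => ind V (y :: t) + suf V t

noncomputable def al (V : List β → Prop) (u : List β) : ℝ := ind V u.tail - ind V u.dropLast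

omit [DecidableEq β] in
lemma ind_nonneg (V : List β → Prop) (u : List β) : 0 ≤ ind V u := by
  unfold ind; split_ifs <;> norm_num

omit [DecidableEq β] in
lemma ind_le (V : List β → Prop) (u : List β) : ind V u ≤ 1 := by
  unfold ind; split_ifs <;> norm_num

omit [DecidableEq β] in
lemma tele (V : List β → Prop) (y : β) (t : List β) :
    ∑ k ∈ Finset.range ((y :: t).length + 1), al V ((y :: t).take k) =
      pre V t - pre V (y :: t) + ind V (y :: t) := by
  unfold al pre
  rw [Finset.sum_sub_distrib, Finset.sum_range_succ' (fun k => ind V ((y :: t).take k).tail),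
    Finset.sum_range_succ' (fun k => ind V ((y :: t).take k).dropLast),
    Finset.sum_range_succ (fun k => ind V ((y :: t).take k))]
  have h1 : ∑ k ∈ Finset.range (y :: t).length, ind V ((y :: t).take (k + 1)).dropLast =
      ∑ k ∈ Finset.range (y :: t).length, ind V ((y :: t).take k) := by
    refine Finset.sum_congr rfl fun k hk => ?_
    rw [Finset.mem_range] at hk
    rw [List.dropLast_eq_take, List.take_take, List.length_take]
    congr 2
    omega
  rw [h1]
  simp only [List.take_succ_cons, List.tail_cons, List.take_zero, List.tail_nil, List.dropLast_nil,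
    List.length_cons, List.take_length]
  ring

omit [DecidableEq β] in
lemma pre_bdd (V : List β → Prop) (L : ℕ) (h : ∀ u, V u → u.length < L) (x : List β) :
    0 ≤ pre V x ∧ pre V x ≤ L := by
  refine ⟨Finset.sum_nonneg fun _ _ => ind_nonneg _ _, ?_⟩
  unfold pre
  calc _ ≤ ∑ k ∈ Finset.range (x.length + 1), (if k ∈ Finset.range L then (1 : ℝ) else 0) := by
        refine Finset.sum_le_sum fun k hk => ?_
        rw [Finset.mem_range] at hk
        by_cases hv : V (x.take k)
        · have := h _ hv
          rw [List.length_take] at this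
          rw [if_pos (by rw [Finset.mem_range]; omega)]
          exact ind_le _ _
        · simp only [ind, if_neg hv]; split_ifs <;> norm_num
    _ ≤ L := by
        rw [Finset.sum_ite_mem, Finset.sum_const, nsmul_eq_mul, mul_one]
        have := Finset.card_le_card (Finset.inter_subset_right (s₁ := Finset.range (x.length + 1))
          (s₂ := Finset.range L))
        rw [Finset.card_range] at this
        exact_mod_cast this

omit [DecidableEq β] in
lemma suf_bdd (V : List β → Prop) (L : ℕ) (h : ∀ u, V u → u.length < L) (x : List β) :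
    0 ≤ suf V x ∧ suf V x ≤ x.length ∧ suf V x ≤ L := by
  induction x with
  | nil => simp [suf]
  | cons y t ih =>
    have h1 := ind_nonneg V (y :: t)
    have h2 := ind_le V (y :: t)
    rw [suf]
    refine ⟨by linarith, by simp only [List.length_cons]; push_cast; linarith, ?_⟩
    by_cases hv : V (y :: t)
    · have := h _ hv
      simp only [List.length_cons] at this
      have h3 : (t.length : ℝ) + 1 ≤ L := by exact_mod_cast this.le
      linarith
    · simp only [ind, if_neg hv]; linarith

omit [DecidableEq β] in
lemma nso1 (x : β) (t : List β) (h : x ∉ t) : NSO (x :: t) := by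
  refine ⟨by simp, fun v h1 h2 h3 h4 => ?_⟩
  cases v with
  | nil => exact h1 rfl
  | cons y v =>
    obtain rfl : y = x := (List.cons_prefix_cons.1 h3).1
    rcases List.suffix_cons_iff.1 h4 with h5 | h5
    · exact h2 h5
    · exact h (h5.subset (by simp))

omit [DecidableEq β] in
lemma nso2 (x y z : β) (t : List β) (h : y ∉ t ++ [z]) (hz : z ≠ x) : NSO (x :: y :: (t ++ [z])) := by
  refine ⟨by simp, fun v h1 h2 h3 h4 => ?_⟩
  match v with
  | [] => exact h1 rfl
  | [a] =>
    obtain rfl : a = x := (List.cons_prefix_cons.1 h3).1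
    obtain ⟨s, hs⟩ := h4
    have := congrArg List.getLast? hs
    rw [← List.cons_append, ← List.cons_append, List.getLast?_concat, List.getLast?_concat] at this
    exact hz (Option.some.inj this).symm
  | a :: b :: v =>
    obtain ⟨rfl, h5⟩ := List.cons_prefix_cons.1 h3
    obtain rfl : b = y := (List.cons_prefix_cons.1 h5).1
    rcases List.suffix_cons_iff.1 h4 with h6 | h6
    · exact h2 h6
    · have h7 : b :: v <:+ t ++ [z] := by
        rcases List.suffix_cons_iff.1 h6 with h7 | h7
        · rw [← (List.cons.inj h7).2]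
        · exact (List.suffix_cons _ _).trans h7
      exact h (h7.subset (by simp))

end lists

section grp
variable {S : Type} [DecidableEq S]

omit [DecidableEq S] in
lemma red_sub {x u : List (S × Bool)} (hx : IsReduced x) (h : u <:+: x) : IsReduced u := by
  obtain ⟨s, t, rfl⟩ := h
  exact (List.IsChain.left_of_append hx).right_of_append

lemma hasSum_pref (f : List (S × Bool) → ℝ) (x : List (S × Bool)) (hx : IsReduced x) :
    HasSum (fun w : FreeGroup S => f w.toWord * (if w.toWord <+: x then 1 else 0))
      (∑ k ∈ Finset.range (x.length + 1), f (x.take k)) := by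
  have h := hasSum_sum (s := Finset.range (x.length + 1))
    (f := fun k (w : FreeGroup S) => if w = mk (x.take k) then f (x.take k) else 0)
    (fun k _ => hasSum_ite_eq (mk (x.take k)) (f (x.take k)))
  convert h using 2 with w
  have key : ∀ k, w = mk (x.take k) ↔ w.toWord = x.take k := by
    intro k
    rw [← toWord_inj, toWord_mk, (red_sub hx (List.take_prefix k x).isInfix).reduce_eq]
  simp only [key]
  split_ifs with hw
  · rw [Finset.sum_eq_single w.toWord.length]
    · rw [← List.prefix_iff_eq_take.1 hw]; simp
    · intro k hk hne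
      rw [if_neg]
      intro h1
      have := congrArg List.length h1
      rw [Finset.mem_range] at hk
      rw [List.length_take] at this
      omega
    · intro h1
      have := hw.length_le
      exact absurd (Finset.mem_range.2 (by omega)) h1
  · rw [Finset.sum_eq_zero, mul_zero]
    intro k _
    rw [if_neg]
    intro h1
    exact hw (h1 ▸ List.take_prefix k x)

lemma hasSum_al (V : List (S × Bool) → Prop) (hV : ¬ V []) (x : List (S × Bool)) (hx : IsReduced x) :
    HasSum (fun w : FreeGroup S => al V w.toWord * occ w.toWord x) (suf V x - pre V x) := by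
  induction x with
  | nil =>
    have : (fun w : FreeGroup S => al V w.toWord * occ w.toWord []) = fun _ => 0 := by
      funext w
      by_cases hw : w.toWord = []
      · simp [hw, al]
      · simp [occ, hw]
    rw [this]
    simp [suf, pre, ind, hV]
  | cons y t ih =>
    have h1 := (hasSum_pref (al V) _ hx).add (ih (red_sub hx (List.suffix_cons y t).isInfix))
    rw [tele] at h1
    convert h1 using 1
    · funext w
      rw [occ_cons]
      push_cast
      ring
    · rw [suf]; ring

omit [DecidableEq S] in
lemma split (Np : Set (FreeGroup S)) (G : FreeGroup S → ℝ) (s : ℝ) (hG : HasSum G s)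
    (h : ∀ w, G w ≠ 0 → Xor (w ∈ Np) (w⁻¹ ∈ Np)) :
    HasSum (fun w : Np => G w + G (w : FreeGroup S)⁻¹) s := by
  classical
  have h1 : Summable (Np.indicator G) := hG.summable.indicator _
  have h2 : HasSum (fun w => G w - Np.indicator G w) (s - ∑' w, Np.indicator G w) :=
    hG.sub h1.hasSum
  have h3 := (Equiv.inv (FreeGroup S)).hasSum_iff.2 h2
  have h4 := h1.hasSum.add h3
  rw [add_sub_cancel] at h4
  have h5 : (fun w : Np => G w + G (w : FreeGroup S)⁻¹) =
      (fun w => G w + G w⁻¹) ∘ ((↑) : Np → FreeGroup S) := rfl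
  rw [h5, hasSum_subtype_iff_indicator]
  convert h4 using 2 with w
  simp only [Function.comp, Equiv.inv_apply, Set.indicator]
  by_cases hz : G w⁻¹ = 0
  · split_ifs <;> simp [hz]
  · have := h _ hz
    rw [inv_inv] at this
    rcases this with ⟨a, b⟩ | ⟨a, b⟩ <;> simp [a, b]

lemma pow_word (g : FreeGroup S) (hg : g ≠ 1) : ∃ p c q : List (S × Bool), c ≠ [] ∧
    ∀ n, 1 ≤ n → (g ^ n).toWord = p ++ rep c n ++ q := by
  refine ⟨reduceCyclically.conjugator g.toWord, reduceCyclically g.toWord,
    invRev (reduceCyclically.conjugator g.toWord), ?_, ?_⟩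
  · intro h
    have h1 := reduceCyclically.conj_conjugator_reduceCyclically g.toWord
    rw [h, List.append_nil] at h1
    apply hg
    rw [← mk_toWord (x := g), ← h1, ← mul_mk, ← inv_mk, mul_inv_cancel]
  · intro n hn
    obtain ⟨n, rfl⟩ : ∃ m, n = m + 1 := ⟨n - 1, by omega⟩
    rw [toWord_pow, reduceCyclically.reduce_flatten_replicate_succ isReduced_toWord]
    rfl

lemma exists_lim (g : FreeGroup S) : ∃ (k : FreeGroup S → ℝ) (L : ℕ),
    (∀ w : FreeGroup S, w ≠ 1 →
      Tendsto (fun n : ℕ => (occ w.toWord (g ^ n).toWord : ℝ) / n) atTop (𝓝 (k w))) ∧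
    ∀ w : FreeGroup S, NSO w.toWord → L < w.toWord.length → k w = 0 := by
  by_cases hg : g = 1
  · refine ⟨fun _ => 0, 0, fun w hw => ?_, fun _ _ _ => rfl⟩
    have : w.toWord ≠ [] := by rwa [Ne, toWord_eq_nil_iff]
    simp [hg, occ, this]
  · obtain ⟨p, c, q, hc, h⟩ := pow_word g hg
    refine ⟨fun w => A w.toWord c (rep c w.toWord.length), c.length, fun w _ => ?_, fun w h1 h2 => ?_⟩
    · obtain ⟨D, hD⟩ := occ_bdd w.toWord p c q hc
      refine lim_bdd _ _ D (w.toWord.length + 1) fun n hn => ?_
      rw [h n (by omega)]
      exact hD n (by omega)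
    · simp [A_nso _ _ hc h1 h2]

omit [DecidableEq S] in
lemma nso_inv {u : List (S × Bool)} (h : NSO (invRev u)) : NSO u := by
  refine ⟨fun h1 => h.1 (by simp [h1]), ?_⟩
  rintro v h1 h2 ⟨s, hs⟩ ⟨t, ht⟩
  refine h.2 (invRev v) (fun h3 => h1 (invRev_injective (by simpa using h3)))
    (fun h3 => h2 (invRev_injective h3)) ⟨invRev t, by rw [← invRev_append, ht]⟩
    ⟨invRev s, by rw [← invRev_append, hs]⟩

omit [DecidableEq S] in
lemma tail_inv (u : List (S × Bool)) : (invRev u).tail = invRev u.dropLast := by
  simp [invRev, List.map_dropLast]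

omit [DecidableEq S] in
lemma dropLast_inv (u : List (S × Bool)) : (invRev u).dropLast = invRev u.tail := by
  simp [invRev, List.map_tail]

def W0 (a b : S) (u : List (S × Bool)) : Prop :=
  ∃ n, u = (a, true) :: rep [(b, true), (a, false)] (n + 1)

def W (a b : S) (u : List (S × Bool)) : Prop := W0 a b u ∨ W0 a b (invRev u)

omit [DecidableEq S] in
lemma W_inv (a b : S) (u : List (S × Bool)) : W a b (invRev u) ↔ W a b u := by
  simp [W, or_comm]

omit [DecidableEq S] in
lemma notmem (a b : S) (hab : a ≠ b) (n : ℕ) : (a, true) ∉ rep [(b, true), (a, false)] n := by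
  simp [rep, hab]

omit [DecidableEq S] in
lemma W_mem (a b : S) (u : List (S × Bool)) (h : W a b u) : (a, true) ∈ u := by
  rcases h with ⟨n, rfl⟩ | ⟨n, h⟩
  · simp
  · have : (a, false) ∈ invRev u := by rw [h]; simp [rep]
    simpa [invRev] using this

omit [DecidableEq S] in
lemma nso_tail (a b : S) (hab : a ≠ b) (u : List (S × Bool)) (hu : IsReduced u)
    (h : W0 a b u.tail) : NSO u := by
  obtain ⟨n, h⟩ := h
  cases u with
  | nil => simp at h
  | cons s t =>
    simp only [List.tail_cons] at h
    subst h
    have e : rep [(b, true), (a, false)] (n + 1) =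
        (rep [(b, true), (a, false)] n ++ [(b, true)]) ++ [(a, false)] := by
      rw [rep_add, rep_one]; simp
    have hm := notmem a b hab (n + 1)
    rw [e] at hm ⊢
    refine nso2 _ _ _ _ hm ?_
    rintro rfl
    simp [FreeGroup.IsReduced] at hu

omit [DecidableEq S] in
lemma nso_drop (a b : S) (hab : a ≠ b) (u : List (S × Bool)) (hu : IsReduced u)
    (h : W0 a b u.dropLast) : NSO u := by
  obtain ⟨n, h⟩ := h
  rcases List.eq_nil_or_concat u with rfl | ⟨t, s, rfl⟩
  · simp at h
  · simp only [List.concat_eq_append, List.dropLast_concat] at h hu ⊢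
    subst h
    refine nso1 _ (_ ++ _) ?_
    rw [List.mem_append, not_or]
    refine ⟨notmem a b hab _, ?_⟩
    rw [List.mem_singleton]
    rintro rfl
    have : [(a, false), (a, true)] <:+: (a, true) :: rep [(b, true), (a, false)] (n + 1) ++ [(a, true)] :=
      ⟨(a, true) :: rep [(b, true), (a, false)] n ++ [(b, true)], [], by rw [rep_add, rep_one]; simp⟩
    have := red_sub hu this
    simp [FreeGroup.IsReduced] at this

lemma al_nso (a b : S) (hab : a ≠ b) (w : FreeGroup S) (h : al (W a b) w.toWord ≠ 0) :
    NSO w.toWord := by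
  have h1 : W a b w.toWord.tail ∨ W a b w.toWord.dropLast := by
    by_contra hh
    rw [not_or] at hh
    simp [al, ind, hh.1, hh.2] at h
  have r1 : IsReduced w.toWord := isReduced_toWord
  have r2 : IsReduced (invRev w.toWord) := by rw [← toWord_inv]; exact isReduced_toWord
  rcases h1 with (h1 | h1) | (h1 | h1)
  · exact nso_tail a b hab _ r1 h1
  · exact nso_inv (nso_drop a b hab _ r2 (by rwa [dropLast_inv]))
  · exact nso_drop a b hab _ r1 h1
  · exact nso_inv (nso_tail a b hab _ r2 (by rwa [tail_inv]))

lemma al_inv (a b : S) (w : FreeGroup S) : al (W a b) w⁻¹.toWord = -al (W a b) w.toWord := by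
  have : ∀ u, ind (W a b) (invRev u) = ind (W a b) u := fun u => by
    unfold ind; rw [propext (W_inv a b u)]
  rw [toWord_inv, al, al, tail_inv, dropLast_inv, this, this]; ring

omit [DecidableEq S] in
lemma red (a b : S) (hab : a ≠ b) (n : ℕ) (x : Bool) :
    IsReduced ((a, x) :: rep [(b, true), (a, false)] n) := by
  induction n generalizing x with
  | zero => simp [rep]
  | succ n ih =>
    rw [add_comm, rep_add, rep_one]
    have := ih false
    simp only [FreeGroup.IsReduced, List.cons_append, List.nil_append, List.isChain_cons_cons] at this ⊢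
    exact ⟨fun h => absurd h hab, fun h => absurd h.symm hab, this⟩

omit [DecidableEq S] in
lemma zero_of (a b : S) (x : List (S × Bool)) (h : (a, true) ∉ x) :
    suf (W a b) x = 0 ∧ pre (W a b) x = 0 := by
  constructor
  · induction x with
    | nil => rfl
    | cons y t ih =>
      rw [suf, ih (fun h1 => h (List.mem_cons_of_mem _ h1)), ind, if_neg (fun h1 => h (W_mem _ _ _ h1))]
      simp
  · refine Finset.sum_eq_zero fun k _ => ?_
    rw [ind, if_neg (fun h1 => h (List.mem_of_mem_take (W_mem _ _ _ h1)))]

omit [DecidableEq S] in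
lemma pre_ge (a b : S) (n : ℕ) : (n : ℝ) ≤ pre (W a b) ((a, true) :: rep [(b, true), (a, false)] n) := by
  induction n with
  | zero => rw [Nat.cast_zero]; exact Finset.sum_nonneg fun _ _ => ind_nonneg _ _
  | succ n ih =>
    set x := (a, true) :: rep [(b, true), (a, false)] n with hx
    have e : (a, true) :: rep [(b, true), (a, false)] (n + 1) = x ++ [(b, true), (a, false)] := by
      rw [rep_add, rep_one]; rfl
    have hw : ind (W a b) (x ++ [(b, true), (a, false)]) = 1 := if_pos (Or.inl ⟨n, e.symm⟩)
    rw [e]
    unfold pre at ih ⊢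
    rw [show (x ++ [(b, true), (a, false)]).length + 1 = x.length + 1 + 1 + 1 by simp,
      Finset.sum_range_succ, Finset.sum_range_succ, List.take_of_length_le (l := x ++ _) (i := x.length + 1 + 1) (by simp), hw]
    have h1 : ∑ k ∈ Finset.range (x.length + 1), ind (W a b) ((x ++ [(b, true), (a, false)]).take k) =
        ∑ k ∈ Finset.range (x.length + 1), ind (W a b) (x.take k) := by
      refine Finset.sum_congr rfl fun k hk => ?_
      rw [Finset.mem_range] at hk
      rw [List.take_append_of_le_length (by omega)]
    rw [h1]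
    have := ind_nonneg (W a b) ((x ++ [(b, true), (a, false)]).take (x.length + 1))
    push_cast
    linarith

lemma bar_sum [Finite S] (V : List (S × Bool) → Prop) (hV : ¬ V [])
    (hN : ∀ w : FreeGroup S, al V w.toWord ≠ 0 → NSO w.toWord) (g : FreeGroup S)
    (k : FreeGroup S → ℝ) (L : ℕ)
    (h1 : ∀ w : FreeGroup S, w ≠ 1 →
      Tendsto (fun n : ℕ => (occ w.toWord (g ^ n).toWord : ℝ) / n) atTop (𝓝 (k w)))
    (h2 : ∀ w : FreeGroup S, NSO w.toWord → L < w.toWord.length → k w = 0) :
    HasSum (fun w : FreeGroup S => al V w.toWord * k w) 0 := by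
  have hfin : {w : FreeGroup S | w.toWord.length ≤ L}.Finite :=
    (List.finite_length_le (S × Bool) L).preimage toWord_injective.injOn
  set T := hfin.toFinset with hT
  have mT : ∀ w, w ∈ T ↔ w.toWord.length ≤ L := by intro w; simp [hT]
  have a1 : HasSum (fun w : FreeGroup S => al V w.toWord * k w) (∑ w ∈ T, al V w.toWord * k w) := by
    refine hasSum_sum_of_ne_finset_zero fun w hw => ?_
    by_cases h : al V w.toWord = 0
    · simp [h]
    · rw [h2 w (hN w h) (by rw [mT] at hw; omega), mul_zero]
  let V' : List (S × Bool) → Prop := fun u => V u ∧ u.length < L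
  have hal : ∀ u : List (S × Bool), al V' u = if u.length ≤ L then al V u else 0 := by
    intro u
    cases u with
    | nil => simp [al]
    | cons y t =>
      have hi : ∀ u : List (S × Bool), u.length = t.length →
          ind V' u = if t.length < L then ind V u else 0 := by
        intro u hu
        by_cases h : t.length < L
        · rw [if_pos h]; unfold ind; rw [show V' u = V u from propext (and_iff_left (hu ▸ h))]
        · rw [if_neg h]; unfold ind; exact if_neg (fun h1 => h (hu ▸ h1.2))
      rw [al, al, hi _ (by simp), hi _ (by simp)]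
      simp only [List.length_cons, Nat.succ_le_iff]
      split_ifs <;> simp
  have a2 : ∀ x : FreeGroup S, ∑ w ∈ T, al V w.toWord * occ w.toWord x.toWord =
      suf V' x.toWord - pre V' x.toWord := by
    intro x
    have b1 := hasSum_al V' (fun h => hV h.1) x.toWord isReduced_toWord
    have b2 : HasSum (fun w : FreeGroup S => al V' w.toWord * occ w.toWord x.toWord)
        (∑ w ∈ T, al V' w.toWord * occ w.toWord x.toWord) := by
      refine hasSum_sum_of_ne_finset_zero fun w hw => ?_
      rw [hal, if_neg (by rwa [mT] at hw), zero_mul]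
    rw [b1.unique b2]
    refine Finset.sum_congr rfl fun w hw => ?_
    rw [hal, if_pos (by rwa [mT] at hw)]
  have a3 : Tendsto (fun n : ℕ => ∑ w ∈ T, al V w.toWord * ((occ w.toWord (g ^ n).toWord : ℝ) / n))
      atTop (𝓝 (∑ w ∈ T, al V w.toWord * k w)) := by
    refine tendsto_finsetSum _ fun w _ => ?_
    by_cases hw : w = 1
    · simp [hw, al]
    · exact (h1 w hw).const_mul _
  have a4 : Tendsto (fun n : ℕ => (suf V' (g ^ n).toWord - pre V' (g ^ n).toWord) / n) atTop (𝓝 0) := by
    refine lim_bdd _ 0 L 0 fun n _ => ?_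
    have c1 := pre_bdd V' L (fun u hu => hu.2) (g ^ n).toWord
    have c2 := suf_bdd V' L (fun u hu => hu.2) (g ^ n).toWord
    rw [abs_le]
    constructor <;> linarith [c1.1, c1.2, c2.1, c2.2.2]
  have a5 : ∑ w ∈ T, al V w.toWord * k w = 0 := by
    refine tendsto_nhds_unique a3 (a4.congr fun n => ?_)
    rw [← a2, Finset.sum_div]
    exact Finset.sum_congr rfl fun w _ => by ring
  rwa [a5] at a1

end grp

theorem result (S : Type) [DecidableEq S] [Finite S] [Nontrivial S] (Np : Set (FreeGroup S))
    (hN1 : ∀ w ∈ Np, NSO w.toWord)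
    (hN2 : ∀ w : FreeGroup S, NSO w.toWord → Xor (w ∈ Np) (w⁻¹ ∈ Np)) :
    ∃ (α : FreeGroup S → ℝ) (hbar : FreeGroup S → FreeGroup S → ℝ) (φ φt : FreeGroup S → ℝ),
      (∀ w, α w⁻¹ = -α w) ∧ (∀ w, ¬ NSO w.toWord → α w = 0) ∧
      (∀ w ∈ Np, ∀ g, Tendsto (fun n : ℕ => brooks w (g ^ n) / n) atTop (𝓝 (hbar w g))) ∧
      (∀ g, HasSum (fun w : Np => α w * brooks w g) (φ g)) ∧
      (∀ g, HasSum (fun w : Np => α w * hbar w g) (φt g)) ∧
      IsQM φt ∧ ¬ IsQM φ := by
  obtain ⟨a, b, hab⟩ := exists_pair_ne S
  choose k L hk1 hk2 using exists_lim (S := S)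
  have hV : ¬ W a b [] := fun h => by simpa using W_mem _ _ _ h
  refine ⟨fun w => al (W a b) w.toWord, fun w g => k g w - k g w⁻¹,
    fun g => suf (W a b) g.toWord - pre (W a b) g.toWord, fun _ => 0, al_inv a b,
    fun w hw => by_contra fun h => hw (al_nso a b hab w h), ?_, ?_, ?_, ⟨0, by simp⟩, ?_⟩
  · intro w hw g
    have h1 : w ≠ 1 := fun h => (hN1 w hw).1 (by simp [h])
    have := (hk1 g w h1).sub (hk1 g w⁻¹ (inv_ne_one.2 h1))
    simpa only [brooks, sub_div] using this
  · intro g
    have := split Np _ _ (hasSum_al (W a b) hV g.toWord isReduced_toWord)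
      (fun w hw => hN2 w (al_nso a b hab w (left_ne_zero_of_mul hw)))
    convert this using 2 with w
    rw [al_inv, brooks]; ring
  · intro g
    have := split Np _ _ (bar_sum (W a b) hV (al_nso a b hab) g (k g) (L g) (hk1 g) (hk2 g))
      (fun w hw => hN2 w (al_nso a b hab w (left_ne_zero_of_mul hw)))
    convert this using 2 with w
    rw [al_inv]; ring
  · rintro ⟨D, hD⟩
    obtain ⟨n, hn⟩ := exists_nat_gt (D + 2)
    have r1 := red a b hab n true
    have r2 : IsReduced (rep [(b, true), (a, false)] n) := red_sub r1 (List.suffix_cons _ _).isInfix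
    have := hD (mk [(a, true)]) (mk (rep [(b, true), (a, false)] n))
    simp only [mul_mk, toWord_mk, List.cons_append, List.nil_append, r1.reduce_eq, r2.reduce_eq,
      reduce_singleton, suf, (zero_of a b _ (notmem a b hab n)).1,
      (zero_of a b _ (notmem a b hab n)).2] at this
    have h1 := pre_ge a b n
    have h2 := ind_le (W a b) ((a, true) :: rep [(b, true), (a, false)] n)
    have h3 : pre (W a b) [(a, true)] = ind (W a b) [(a, true)] := by
      have : ind (W a b) [] = 0 := if_neg hV
      simp [pre, Finset.sum_range_succ, this]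
    rw [h3, abs_le] at this
    linarith [this.2]

end Pool.Agent.Results.MP_c1a8be_al.Counter
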